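import Pool.Agent.TH32.Dep.Attain

/-! Low Ky Fan norms of products of depolarizing channels, one of them entanglement breaking. -/

open scoped ComplexOrder

namespace Pool.Agent.Results.MP_b746ed_mp.KyFanLow

open Pool.Agent.TH32.Dep

theorem result :
    ∀ (d n : ℕ), 2 ≤ d →
    ∀ q : Fin n → ℝ, (∀ i, 0 ≤ q i ∧ q i ≤ 1) →
    ∀ j : Fin n, (∀ i, q j ≤ q i) → q j ≤ 1 / ((d : ℝ) + 1) →
    ∀ Φ : Matrix (Fin n → Fin d) (Fin n → Fin d) ℂ → Matrix (Fin n → Fin d) (Fin n → Fin d) ℂ,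
    IsChan d n q Φ →
    (∀ ρ : Matrix (Fin n → Fin d) (Fin n → Fin d) ℂ, ρ.PosSemidef → ρ.trace = 1 →
      ∀ φ : (Fin n → Fin d) → ℂ,
        form (Φ ρ) φ ≤ lam2 d q j * ∑ a, ‖φ a‖ ^ 2 + (lam1 d q - lam2 d q j) * form ρ φ) ∧
    (∀ ρ : Matrix (Fin n → Fin d) (Fin n → Fin d) ℂ, ρ.PosSemidef → ρ.trace = 1 →
      ∀ (m : ℕ) (φ : Fin (m + 1) → (Fin n → Fin d) → ℂ), ON φ →
        ∑ a, form (Φ ρ) (φ a) ≤ lam1 d q + m * lam2 d q j) ∧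
    (∃ ψ : Fin n → Fin d → ℂ, (∀ i, ∑ c, ‖ψ i c‖ ^ 2 = 1) ∧
      ∀ m : ℕ, m ≤ (Finset.univ.filter fun i => q i = q j).card * (d - 1) →
        ∃ φ : Fin (m + 1) → (Fin n → Fin d) → ℂ, ON φ ∧
          ∑ a, form (Φ (Matrix.of fun a b => ∏ i, ψ i (a i) * star (ψ i (b i)))) (φ a)
            = lam1 d q + m * lam2 d q j) := by
  intro d n hd q hq j hj hj1 Φ hΦ
  exact ⟨fun ρ hρ ht φ => part_a hd q hq j hj hj1 Φ hΦ ρ hρ ht φ,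
    fun ρ hρ ht m φ hφ => part_b hd q hq j hj hj1 Φ hΦ ρ hρ ht m φ hφ,
    part_c hd q hq j Φ hΦ⟩

end Pool.Agent.Results.MP_b746ed_mp.KyFanLow
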